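import Pool.Agent.Lib_helper68.PV.B1a
import Pool.Agent.Lib_helper71.EQM.Odes

/-! Project PV (MP_b08f5f_an), block B1a: the vortex flow exists for all times. -/

set_option autoImplicit false

namespace Pool.Agent.Lib_helper25.PV

open MeasureTheory Filter Topology Set Pool.Agent.EQ.OD
open scoped ComplexConjugate

noncomputable section

/-- the energy -/
def B1a_en {N : ℕ} (z : Conf N) : ℝ := ∑ i, ∑ j ∈ Finset.univ.erase i, Real.log ‖z i - z j‖

theorem B1a_inertia_nonneg {N : ℕ} (z : Conf N) : 0 ≤ inertia z :=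
  Finset.sum_nonneg fun i _ => by positivity

theorem B1a_norm_le {N : ℕ} {z : Conf N} {R : ℝ} (h : inertia z ≤ R) (i : Fin N) :
    ‖z i‖ ≤ R + 1 := by
  have h1 : ‖z i‖ ^ 2 ≤ inertia z :=
    Finset.single_le_sum (f := fun i => ‖z i‖ ^ 2) (fun i _ => by positivity) (Finset.mem_univ i)
  nlinarith [norm_nonneg (z i), sq_nonneg (‖z i‖ - 1)]

/-- if the moment of inertia is at most `R` and the energy at least `E`, the points stay apart -/
theorem B1a_apart {N : ℕ} {z : Conf N} (hz : Function.Injective z) {R E : ℝ}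
    (hR : inertia z ≤ R) (hE : E ≤ B1a_en z) {i j : Fin N} (hij : i ≠ j) :
    Real.exp (E - N * N * (2 * R + 2)) ≤ ‖z i - z j‖ := by
  have hR0 : 0 ≤ R := (B1a_inertia_nonneg z).trans hR
  set B : ℝ := 2 * R + 2 with hB
  have hB0 : 0 ≤ B := by positivity
  have hpos : ∀ a b : Fin N, a ≠ b → 0 < ‖z a - z b‖ := fun a b hab =>
    norm_pos_iff.2 (sub_ne_zero.2 fun h => hab (hz h))
  have hlog : ∀ a b : Fin N, a ≠ b → Real.log ‖z a - z b‖ ≤ B := by
    intro a b hab
    have h1 := Real.log_le_sub_one_of_pos (hpos a b hab)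
    have h2 : ‖z a - z b‖ ≤ (R + 1) + (R + 1) :=
      (norm_sub_le _ _).trans (add_le_add (B1a_norm_le hR a) (B1a_norm_le hR b))
    linarith
  have h1 : B - Real.log ‖z i - z j‖ ≤
      ∑ b ∈ Finset.univ.erase i, (B - Real.log ‖z i - z b‖) :=
    Finset.single_le_sum (f := fun b => B - Real.log ‖z i - z b‖)
      (fun b hb => by
        have := hlog i b (Finset.ne_of_mem_erase hb).symm
        show 0 ≤ B - Real.log ‖z i - z b‖
        linarith) (Finset.mem_erase.2 ⟨hij.symm, Finset.mem_univ j⟩)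
  have h2 : ∑ b ∈ Finset.univ.erase i, (B - Real.log ‖z i - z b‖) ≤
      ∑ a, ∑ b ∈ Finset.univ.erase a, (B - Real.log ‖z a - z b‖) :=
    Finset.single_le_sum (f := fun a => ∑ b ∈ Finset.univ.erase a, (B - Real.log ‖z a - z b‖))
      (fun a _ => Finset.sum_nonneg fun b hb => by
        have := hlog a b (Finset.ne_of_mem_erase hb).symm
        linarith) (Finset.mem_univ i)
  have h3 : ∑ a, ∑ b ∈ Finset.univ.erase a, (B - Real.log ‖z a - z b‖) ≤
      N * N * B - B1a_en z := by
    unfold B1a_en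
    simp only [Finset.sum_sub_distrib, Finset.sum_const, nsmul_eq_mul, Finset.card_univ,
      Fintype.card_fin]
    have h4 : ∀ a : Fin N, (((Finset.univ.erase a).card : ℕ) : ℝ) * B ≤ N * B := by
      intro a
      have h5 : (Finset.univ.erase a).card ≤ N := by
        simp
      have h6 : (((Finset.univ.erase a).card : ℕ) : ℝ) ≤ N := by exact_mod_cast h5
      exact mul_le_mul_of_nonneg_right h6 hB0
    have h5 : ∑ a : Fin N, (((Finset.univ.erase a).card : ℕ) : ℝ) * B ≤ ∑ _a : Fin N, (N : ℝ) * B :=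
      Finset.sum_le_sum fun a _ => h4 a
    have h6 : ∑ _a : Fin N, (N : ℝ) * B = N * N * B := by
      simp only [Finset.sum_const, nsmul_eq_mul, Finset.card_univ, Fintype.card_fin]
      ring
    linarith
  have h4 : E - N * N * B ≤ Real.log ‖z i - z j‖ := by linarith
  exact (Real.le_log_iff_exp_le (hpos i j hij)).1 h4

/-- the compact sets of the completeness argument -/
def B1a_K (N : ℕ) (R d : ℝ) : Set (Conf N) :=
  {z | inertia z ≤ R ∧ ∀ i j, i ≠ j → d ≤ ‖z i - z j‖}

theorem B1a_continuous_inertia (N : ℕ) : Continuous (inertia (N := N)) := by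
  unfold inertia
  fun_prop

theorem B1a_continuous_centre (N : ℕ) : Continuous (centre (N := N)) := by
  unfold centre
  fun_prop

theorem B1a_K_compact (N : ℕ) (R d : ℝ) : IsCompact (B1a_K N R d) := by
  have h1 : IsClosed (B1a_K N R d) := by
    have h2 : B1a_K N R d = {z | inertia z ≤ R} ∩ ⋂ i, ⋂ j, {z : Conf N | i ≠ j → d ≤ ‖z i - z j‖} := by
      ext z
      simp [B1a_K]
    rw [h2]
    refine (isClosed_le (B1a_continuous_inertia N) continuous_const).inter
      (isClosed_iInter fun i => isClosed_iInter fun j => ?_)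
    by_cases hij : i = j
    · simp [hij]
    · simp only [ne_eq, hij, not_false_eq_true, forall_const]
      exact isClosed_le continuous_const (by fun_prop)
  refine (isCompact_closedBall (0 : Conf N) (|R| + 1)).of_isClosed_subset h1 ?_
  intro z hz
  rw [mem_closedBall_zero_iff, pi_norm_le_iff_of_nonneg (by positivity)]
  intro i
  exact B1a_norm_le (hz.1.trans (le_abs_self R)) i

theorem B1a_K_subset {N : ℕ} {R d : ℝ} (hd : 0 < d) : B1a_K N R d ⊆ NC N := by
  intro z hz i j hij
  by_contra hne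
  have := hz.2 i j hne
  rw [hij, sub_self, norm_zero] at this
  linarith

theorem B1a_en_continuousOn (N : ℕ) : ContinuousOn (B1a_en (N := N)) (NC N) := by
  unfold B1a_en
  refine continuousOn_finsetSum _ fun i _ => continuousOn_finsetSum _ fun j hj => ?_
  refine ContinuousOn.log (by fun_prop) fun z hz => ?_
  exact norm_ne_zero_iff.2 (sub_ne_zero.2 fun h => (Finset.ne_of_mem_erase hj).symm (hz h))

/-- the region where a given amount of energy and inertia is not exceeded -/
def B1a_U (N : ℕ) (R E : ℝ) : Set (Conf N) :=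
  (NC N ∩ B1a_en ⁻¹' Ioi E) ∩ {z | inertia z < R}

theorem B1a_U_open (N : ℕ) (R E : ℝ) : IsOpen (B1a_U N R E) :=
  ((B1a_en_continuousOn N).isOpen_inter_preimage (isOpen_NC N) isOpen_Ioi).inter
    (isOpen_lt (B1a_continuous_inertia N) continuous_const)

theorem B1a_U_subset {N : ℕ} {R E : ℝ} :
    B1a_U N R E ⊆ B1a_K N R (Real.exp (E - N * N * (2 * R + 2))) := by
  rintro z ⟨⟨h1, h2⟩, h3⟩
  have h3' : inertia z < R := h3
  have h2' : E < B1a_en z := h2
  exact ⟨h3'.le, fun i j hij => B1a_apart h1 h3'.le h2'.le hij⟩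

/-- conservation along a solution on an open interval -/
theorem B1a_conserved {N : ℕ} {γ : ℝ → Conf N} {I : Set ℝ} (hI : IsOpen I)
    (hc : IsPreconnected I) (h : Sol (vel (N := N)) (NC N) γ I) {s t : ℝ} (hs : s ∈ I)
    (ht : t ∈ I) :
    B1a_en (γ s) = B1a_en (γ t) ∧ inertia (γ s) = inertia (γ t) ∧ centre (γ s) = centre (γ t) := by
  refine ⟨?_, ?_, ?_⟩
  · exact hI.is_const_of_deriv_eq_zero (f := fun s => B1a_en (γ s)) hc
      (fun t ht => (B1a_energy (h t ht).2 (h t ht).1).differentiableAt.differentiableWithinAt)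
      (fun t ht => (B1a_energy (h t ht).2 (h t ht).1).deriv) hs ht
  · exact hI.is_const_of_deriv_eq_zero (f := fun s => inertia (γ s)) hc
      (fun t ht => (B1a_inertia (h t ht).2).differentiableAt.differentiableWithinAt)
      (fun t ht => (B1a_inertia (h t ht).2).deriv) hs ht
  · exact hI.is_const_of_deriv_eq_zero (f := fun s => centre (γ s)) hc
      (fun t ht => (B1a_centre (h t ht).2).differentiableAt.differentiableWithinAt)
      (fun t ht => (B1a_centre (h t ht).2).deriv) hs ht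

theorem B1a_complete (N : ℕ) : ∀ x ∈ NC N, ∃ γ : ℝ → Conf N, γ 0 = x ∧
    Sol (vel (N := N)) (NC N) γ univ := by
  intro x hx
  set R : ℝ := inertia x + 1 with hR
  set E : ℝ := B1a_en x - 1 with hE
  have hUNC : B1a_U N R E ⊆ NC N := fun z hz => hz.1.1
  obtain ⟨ε, hε, hex⟩ := exists_time (isOpen_NC N) (vel_contDiffOn N)
    (B1a_K_compact N R (Real.exp (E - N * N * (2 * R + 2))))
    (B1a_K_subset (Real.exp_pos _))
  have key : ∀ y ∈ B1a_U N R E, ∃ γ : ℝ → Conf N, γ 0 = y ∧
      Sol (vel (N := N)) (B1a_U N R E) γ (Ioo (-ε) ε) := by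
    intro y hy
    obtain ⟨γ, h0, hγ⟩ := hex y (B1a_U_subset hy)
    refine ⟨γ, h0, fun t ht => ⟨?_, (hγ t ht).2⟩⟩
    obtain ⟨h1, h2, -⟩ := B1a_conserved isOpen_Ioo isPreconnected_Ioo hγ ht
      (show (0 : ℝ) ∈ Ioo (-ε) ε from ⟨by linarith, hε⟩)
    rw [h0] at h1 h2
    refine ⟨⟨(hγ t ht).1, ?_⟩, ?_⟩
    · show E < B1a_en (γ t)
      rw [h1]
      exact hy.1.2
    · show inertia (γ t) < R
      rw [h2]
      exact hy.2
  have hxU : x ∈ B1a_U N R E := ⟨⟨hx, by show E < B1a_en x; linarith⟩, by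
    show inertia x < R; linarith⟩
  obtain ⟨γ, h0, hγ⟩ := Sol.complete (B1a_U_open N R E)
    (((vel_contDiffOn N).of_le (by norm_num)).mono hUNC) hε key x hxU
  exact ⟨γ, h0, fun t ht => ⟨hUNC (hγ t ht).1, (hγ t ht).2⟩⟩

/-- **B1a.** The vortex flow exists for all times and conserves the centre and the inertia. -/
theorem exists_global (N : ℕ) : ∃ G : Pool.Agent.EQ.OD.GlobalFlow (vel (N := N)) (NC N),
    (∀ t z, centre (G.φ t z) = centre z) ∧ (∀ t z, inertia (G.φ t z) = inertia z) := by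
  obtain ⟨G⟩ := exists_globalFlow (isOpen_NC N) (vel_contDiffOn N) (B1a_complete N)
  have key : ∀ t, ∀ z ∈ NC N, inertia (G.φ t z) = inertia (G.φ 0 z) ∧
      centre (G.φ t z) = centre (G.φ 0 z) := fun t z hz =>
    (B1a_conserved isOpen_univ isPreconnected_univ
      (fun s _ => ⟨G.mem s z hz, G.dt s z hz⟩ : Sol (vel (N := N)) (NC N) (fun s => G.φ s z) univ)
      (mem_univ t) (mem_univ 0)).2
  refine ⟨G, fun t z => ?_, fun t z => ?_⟩
  · by_cases hz : z ∈ NC N
    · rw [(key t z hz).2, G.zero]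
    · rw [G.out t z hz]
  · by_cases hz : z ∈ NC N
    · rw [(key t z hz).1, G.zero]
    · rw [G.out t z hz]

end

end Pool.Agent.Lib_helper25.PV
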