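import Mathlib

/-! Project PV (MP_b08f5f_an), block B8A: Cesaro limits for every scale give the limit of the means
over the scale, without time average. -/

set_option autoImplicit false

namespace Pool.Agent.Lib_helper25.PV

open MeasureTheory Filter Topology Set

noncomputable section

/-- integration by parts -/
theorem B8A_parts {h : ℝ → ℝ} (hh : Continuous h) {c d t : ℝ} (hc : 0 < c) (hcd : c ≤ d)
    (ht : 0 < t) :
    ∫ r in c..d, h (t / r ^ 2) =
      c / 2 * ((t / c ^ 2)⁻¹ * ∫ s in (0 : ℝ)..(t / c ^ 2), h s)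
        - d / 2 * ((t / d ^ 2)⁻¹ * ∫ s in (0 : ℝ)..(t / d ^ 2), h s)
        + 3 / 2 * ∫ r in c..d, ((t / r ^ 2)⁻¹ * ∫ s in (0 : ℝ)..(t / r ^ 2), h s) := by
  have hd : 0 < d := hc.trans_le hcd
  set H : ℝ → ℝ := fun T => ∫ s in (0 : ℝ)..T, h s with hH
  have hHd : ∀ T, HasDerivAt H (h T) T := fun T =>
    intervalIntegral.integral_hasDerivAt_right (hh.intervalIntegrable _ _)
      (hh.stronglyMeasurableAtFilter _ _) hh.continuousAt
  have hHc : Continuous H := continuous_iff_continuousAt.2 fun T => (hHd T).continuousAt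
  have hpos : ∀ r ∈ uIcc c d, 0 < r := by
    intro r hr
    rw [uIcc_of_le hcd] at hr
    exact hc.trans_le hr.1
  have hq : ∀ r ∈ uIcc c d, HasDerivAt (fun r : ℝ => t / r ^ 2) (-(2 * t) * r⁻¹ ^ 3) r := by
    intro r hr
    have hr0 : r ≠ 0 := (hpos r hr).ne'
    have h2 := (hasDerivAt_pow 2 r).inv (pow_ne_zero 2 hr0)
    have h3 := h2.const_mul t
    refine (h3.congr_of_eventuallyEq (Eventually.of_forall fun s => ?_)).congr_deriv ?_
    · simp only [Pi.inv_apply, div_eq_mul_inv]
    · field_simp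
      push_cast
      ring
  have hqc : ContinuousOn (fun r : ℝ => t / r ^ 2) (uIcc c d) := fun r hr =>
    (hq r hr).continuousAt.continuousWithinAt
  have hderiv : ∀ r ∈ uIcc c d, HasDerivAt (fun r : ℝ => -(r ^ 3 / (2 * t) * H (t / r ^ 2)))
      (h (t / r ^ 2) - 3 / 2 * ((t / r ^ 2)⁻¹ * H (t / r ^ 2))) r := by
    intro r hr
    have hr0 : r ≠ 0 := (hpos r hr).ne'
    have h1 : HasDerivAt (fun r : ℝ => r ^ 3 / (2 * t)) (3 * r ^ 2 / (2 * t)) r := by
      have := (hasDerivAt_pow 3 r).div_const (2 * t)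
      simpa using this
    have h2 := ((hHd (t / r ^ 2)).comp r (hq r hr))
    have h3 := (h1.mul h2).neg
    refine h3.congr_deriv ?_
    simp only [Function.comp]
    field_simp
    ring
  have hi1 : IntervalIntegrable (fun r : ℝ => h (t / r ^ 2)) volume c d :=
    (hh.comp_continuousOn hqc).intervalIntegrable
  have hi2 : IntervalIntegrable (fun r : ℝ => (t / r ^ 2)⁻¹ * H (t / r ^ 2)) volume c d := by
    refine ContinuousOn.intervalIntegrable ((hqc.inv₀ fun r hr => ?_).mul
      (hHc.comp_continuousOn hqc))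
    have := hpos r hr
    positivity
  have h1 := intervalIntegral.integral_eq_sub_of_hasDerivAt hderiv
    (hi1.sub (hi2.const_mul (3 / 2)))
  rw [intervalIntegral.integral_sub hi1 (hi2.const_mul (3 / 2)),
    intervalIntegral.integral_const_mul] at h1
  have h2 : ∀ r : ℝ, 0 < r → r ^ 3 / (2 * t) * H (t / r ^ 2) =
      r / 2 * ((t / r ^ 2)⁻¹ * H (t / r ^ 2)) := by
    intro r hr
    field_simp
  rw [h2 d hd, h2 c hc] at h1
  linarith

theorem B8A_mean_le {h : ℝ → ℝ} {C : ℝ} (hC : ∀ s, |h s| ≤ C) {T : ℝ} (hT : 0 < T) :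
    |T⁻¹ * ∫ s in (0 : ℝ)..T, h s| ≤ C := by
  have h1 : ‖∫ s in (0 : ℝ)..T, h s‖ ≤ C * |T - 0| :=
    intervalIntegral.norm_integral_le_of_norm_le_const fun s _ => hC s
  rw [sub_zero, abs_of_pos hT, Real.norm_eq_abs] at h1
  rw [abs_mul, abs_inv, abs_of_pos hT, inv_mul_le_iff₀ hT]
  linarith

/-- one continuous function of the time -/
theorem B8A_const {h : ℝ → ℝ} (hh : Continuous h) {C : ℝ} (hC : ∀ s, |h s| ≤ C) {l : ℝ}
    (hl : Tendsto (fun T : ℝ => T⁻¹ * ∫ s in (0 : ℝ)..T, h s) atTop (𝓝 l)) {c d : ℝ}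
    (hc : 0 < c) (hcd : c ≤ d) :
    Tendsto (fun t : ℝ => ∫ r in c..d, h (t / r ^ 2)) atTop (𝓝 ((d - c) * l)) := by
  have hd : 0 < d := hc.trans_le hcd
  have hlim : ∀ r : ℝ, 0 < r → Tendsto
      (fun t : ℝ => (t / r ^ 2)⁻¹ * ∫ s in (0 : ℝ)..(t / r ^ 2), h s) atTop (𝓝 l) := fun r hr =>
    hl.comp (tendsto_id.atTop_div_const (by positivity))
  have hint : Tendsto (fun t : ℝ => ∫ r in c..d,
      ((t / r ^ 2)⁻¹ * ∫ s in (0 : ℝ)..(t / r ^ 2), h s)) atTop (𝓝 (∫ _ in c..d, l)) := by
    refine intervalIntegral.tendsto_integral_filter_of_dominated_convergence (fun _ => C)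
      ?_ ?_ intervalIntegrable_const ?_
    · filter_upwards [eventually_gt_atTop 0] with t ht
      have hHc : Continuous fun T : ℝ => ∫ s in (0 : ℝ)..T, h s :=
        intervalIntegral.continuous_primitive (fun a b => hh.intervalIntegrable a b) 0
      have hqc : ContinuousOn (fun r : ℝ => t / r ^ 2) (uIoc c d) := by
        refine continuousOn_const.div (continuousOn_id.pow 2) fun r hr => ?_
        rw [uIoc_of_le hcd] at hr
        have : 0 < r := hc.trans hr.1
        exact (pow_pos this 2).ne'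
      refine ContinuousOn.aestronglyMeasurable ((hqc.inv₀ fun r hr => ?_).mul
        (hHc.comp_continuousOn hqc)) measurableSet_uIoc
      rw [uIoc_of_le hcd] at hr
      have : 0 < r := hc.trans hr.1
      positivity
    · filter_upwards [eventually_gt_atTop 0] with t ht
      refine Eventually.of_forall fun r hr => ?_
      rw [uIoc_of_le hcd] at hr
      have : 0 < r := hc.trans hr.1
      exact B8A_mean_le hC (by positivity)
    · refine Eventually.of_forall fun r hr => ?_
      rw [uIoc_of_le hcd] at hr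
      exact hlim r (hc.trans hr.1)
  rw [intervalIntegral.integral_const, smul_eq_mul] at hint
  have h1 := (((hlim c hc).const_mul (c / 2)).sub ((hlim d hd).const_mul (d / 2))).add
    (hint.const_mul (3 / 2))
  have e : c / 2 * l - d / 2 * l + 3 / 2 * ((d - c) * l) = (d - c) * l := by ring
  rw [e] at h1
  refine h1.congr' ?_
  filter_upwards [eventually_gt_atTop 0] with t ht
  exact (B8A_parts hh hc hcd ht).symm

/-- cutting the density of the scale -/
theorem B8A_cut {w w0 M : ℝ → ℝ} {C K ε δ b : ℝ} (hw : IntegrableOn w (Ioi 0))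
    (hi0 : Integrable w0) (hK : ∀ r, |w0 r| ≤ K) (hb : ∀ r, b < r → w0 r = 0)
    (hδ : 0 < δ) (hδb : δ < b) (hε : ∫ r in Ioi (0 : ℝ), |w r - w0 r| ≤ ε)
    (hM : AEStronglyMeasurable M (volume.restrict (Ioi 0))) (hMC : ∀ r, 0 < r → |M r| ≤ C) :
    |(∫ r in Ioi (0 : ℝ), w r * M r) - ∫ r in δ..b, w0 r * M r| ≤ C * (ε + K * δ) := by
  have hC0 : 0 ≤ C := (abs_nonneg _).trans (hMC 1 one_pos)
  have hsub : Ioi (0 : ℝ) ∩ Ioc δ b = Ioc δ b :=
    inter_eq_self_of_subset_right fun r hr => hδ.trans hr.1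
  set v : ℝ → ℝ := (Ioc δ b).indicator w0 with hv
  have hvi : Integrable v := hi0.indicator measurableSet_Ioc
  have e1 : ∫ r in δ..b, w0 r * M r = ∫ r in Ioi (0 : ℝ), v r * M r := by
    rw [intervalIntegral.integral_of_le hδb.le]
    have h1 : ∀ r, v r * M r = (Ioc δ b).indicator (fun r => w0 r * M r) r := by
      intro r
      rw [hv]
      by_cases hr : r ∈ Ioc δ b
      · rw [indicator_of_mem hr, indicator_of_mem hr]
      · rw [indicator_of_notMem hr, indicator_of_notMem hr, zero_mul]
    simp_rw [h1]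
    rw [MeasureTheory.setIntegral_indicator measurableSet_Ioc, hsub]
  have hmul : ∀ f : ℝ → ℝ, IntegrableOn f (Ioi 0) → IntegrableOn (fun r => f r * M r) (Ioi 0) := by
    intro f hf
    refine Integrable.mono' (hf.norm.const_mul C) (hf.aestronglyMeasurable.mul hM) ?_
    refine (ae_restrict_iff' measurableSet_Ioi).2 (Eventually.of_forall fun r hr => ?_)
    rw [norm_mul, mul_comm C]
    exact mul_le_mul_of_nonneg_left (hMC r hr) (norm_nonneg _)
  rw [e1, ← integral_sub (hmul w hw) (hmul v hvi.integrableOn)]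
  have hdi : IntegrableOn (fun r => |w r - w0 r|) (Ioi 0) :=
    (Integrable.sub hw hi0.integrableOn).abs
  have hki : IntegrableOn ((Ioc 0 δ).indicator fun _ : ℝ => K) (Ioi 0) :=
    ((integrable_indicator_iff measurableSet_Ioc).2
      (integrableOn_const (by simp))).integrableOn
  have hbd : ∀ᵐ r ∂(volume.restrict (Ioi (0 : ℝ))), ‖w r * M r - v r * M r‖ ≤
      C * (|w r - w0 r| + (Ioc 0 δ).indicator (fun _ : ℝ => K) r) := by
    refine (ae_restrict_iff' measurableSet_Ioi).2 (Eventually.of_forall fun r hr => ?_)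
    have hr0 : 0 < r := hr
    rw [← sub_mul, norm_mul, mul_comm]
    refine mul_le_mul (hMC r hr0) ?_ (norm_nonneg _) hC0
    rw [Real.norm_eq_abs]
    have h1 : |w0 r - v r| ≤ (Ioc 0 δ).indicator (fun _ : ℝ => K) r := by
      by_cases h2 : r ∈ Ioc δ b
      · rw [hv, indicator_of_mem h2, sub_self, abs_zero, indicator_of_notMem]
        intro h3
        exact absurd h3.2 (not_le.2 h2.1)
      · rw [hv, indicator_of_notMem h2, sub_zero]
        by_cases h3 : r ≤ δ
        · rw [indicator_of_mem (show r ∈ Ioc 0 δ from ⟨hr0, h3⟩)]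
          exact hK r
        · rw [hb r (by
            by_contra h4
            exact h2 ⟨not_le.1 h3, not_lt.1 h4⟩), abs_zero, indicator_of_notMem]
          intro h4
          exact h3 h4.2
    calc |w r - v r| = |(w r - w0 r) + (w0 r - v r)| := by ring_nf
      _ ≤ |w r - w0 r| + |w0 r - v r| := abs_add_le _ _
      _ ≤ _ := by linarith
  have h1 := norm_integral_le_of_norm_le ((hdi.add hki).const_mul C) hbd
  rw [Real.norm_eq_abs] at h1
  refine h1.trans ?_
  have h2 : ∫ r in Ioi (0 : ℝ), C * (|w r - w0 r| + (Ioc 0 δ).indicator (fun _ : ℝ => K) r) =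
      C * ((∫ r in Ioi (0 : ℝ), |w r - w0 r|) + K * δ) := by
    rw [integral_const_mul, integral_add hdi hki]
    congr 2
    rw [MeasureTheory.setIntegral_indicator measurableSet_Ioc,
      inter_eq_self_of_subset_right (show Ioc 0 δ ⊆ Ioi (0 : ℝ) from fun r hr => hr.1),
      setIntegral_const, smul_eq_mul, mul_comm]
    simp [hδ.le]
  refine (le_of_eq h2).trans ?_
  exact mul_le_mul_of_nonneg_left (by linarith) hC0

variable {E : Type*} [NormedAddCommGroup E] [NormedSpace ℝ E] [ProperSpace E]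

omit [NormedSpace ℝ E] in
/-- a parameter -/
theorem B8A_param {x : ℝ → E} (hx : Continuous x) {R : ℝ} (hR : ∀ t, ‖x t‖ ≤ R)
    {F : ℝ → E → ℝ} (hF : Continuous fun p : ℝ × E => F p.1 p.2) {G : ℝ → ℝ} {a b : ℝ}
    (ha : 0 < a) (hab : a < b)
    (hG : ∀ r ∈ Icc a b, Tendsto (fun T : ℝ => T⁻¹ * ∫ s in (0 : ℝ)..T, F r (x s)) atTop
      (𝓝 (G r))) :
    Tendsto (fun t : ℝ => ∫ r in a..b, F r (x (t / r ^ 2))) atTop (𝓝 (∫ r in a..b, G r)) := by
  have hball : ∀ s, x s ∈ Metric.closedBall (0 : E) R := fun s => by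
    rw [mem_closedBall_zero_iff]
    exact hR s
  have hFx : ∀ r, Continuous fun s => F r (x s) := fun r =>
    hF.comp (continuous_const.prodMk hx)
  have hK : IsCompact (Icc a b ×ˢ Metric.closedBall (0 : E) R) :=
    isCompact_Icc.prod (isCompact_closedBall _ _)
  have huc := hK.uniformContinuousOn_of_continuous hF.continuousOn
  rw [Metric.uniformContinuousOn_iff] at huc
  -- bound
  obtain ⟨C, hC⟩ : ∃ C, ∀ r ∈ Icc a b, ∀ y ∈ Metric.closedBall (0 : E) R, |F r y| ≤ C := by
    obtain ⟨C, hC⟩ := hK.exists_bound_of_continuousOn hF.continuousOn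
    exact ⟨C, fun r hr y hy => hC (r, y) ⟨hr, hy⟩⟩
  -- oscillation of the limit
  have hosc : ∀ ε : ℝ, 0 < ε → ∃ η : ℝ, 0 < η ∧ (∀ r ∈ Icc a b, ∀ r' ∈ Icc a b, |r - r'| < η →
      (∀ y ∈ Metric.closedBall (0 : E) R, |F r y - F r' y| ≤ ε) ∧ |G r - G r'| ≤ ε) := by
    intro ε hε
    obtain ⟨η, hη, h1⟩ := huc ε hε
    refine ⟨η, hη, fun r hr r' hr' hrr => ?_⟩
    have h2 : ∀ y ∈ Metric.closedBall (0 : E) R, |F r y - F r' y| ≤ ε := by
      intro y hy
      have := h1 (r, y) ⟨hr, hy⟩ (r', y) ⟨hr', hy⟩ (by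
        rw [Prod.dist_eq]
        simp only [dist_self]
        rw [max_eq_left dist_nonneg, Real.dist_eq]
        exact hrr)
      rw [Real.dist_eq] at this
      exact this.le
    refine ⟨h2, ?_⟩
    have h3 := ((hG r hr).sub (hG r' hr')).abs
    refine le_of_tendsto h3 ?_
    filter_upwards [eventually_gt_atTop 0] with T hT
    rw [← mul_sub, ← intervalIntegral.integral_sub ((hFx r).intervalIntegrable _ _)
      ((hFx r').intervalIntegrable _ _)]
    exact B8A_mean_le (fun s => h2 _ (hball s)) hT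
  have hGc : ContinuousOn G (Icc a b) := by
    rw [Metric.continuousOn_iff]
    intro r hr ε hε
    obtain ⟨η, hη, h1⟩ := hosc (ε / 2) (by positivity)
    refine ⟨η, hη, fun r' hr' hrr => ?_⟩
    rw [Real.dist_eq] at hrr ⊢
    exact lt_of_le_of_lt (h1 r' hr' r hr hrr).2 (by linarith)
  have hmap : ∀ t : ℝ, ContinuousOn (fun r : ℝ => F r (x (t / r ^ 2))) (Icc a b) := by
    intro t
    refine hF.comp_continuousOn (continuousOn_id.prodMk (hx.comp_continuousOn ?_))
    refine continuousOn_const.div (continuousOn_id.pow 2) fun r hr => ?_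
    have : 0 < r := ha.trans_le hr.1
    exact (pow_pos this 2).ne'
  rw [Metric.tendsto_atTop']
  suffices h : ∀ ε : ℝ, 0 < ε → ∀ᶠ t : ℝ in atTop,
      |(∫ r in a..b, F r (x (t / r ^ 2))) - ∫ r in a..b, G r| ≤ 3 * ε * (b - a) by
    intro ε hε
    obtain ⟨t0, h1⟩ := eventually_atTop.mp (h (ε / (6 * (b - a))) (by
      have : 0 < b - a := by linarith
      positivity))
    refine ⟨t0, fun t ht => ?_⟩
    rw [Real.dist_eq]
    refine lt_of_le_of_lt (h1 t ht.le) ?_
    have h2 : 0 < b - a := by linarith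
    have e : 3 * (ε / (6 * (b - a))) * (b - a) = ε / 2 := by
      field_simp
      norm_num
    rw [e]
    linarith
  intro ε hε
  obtain ⟨η, hη, hosc⟩ := hosc ε hε
  have hba : 0 < b - a := by linarith
  obtain ⟨n, hn⟩ := exists_nat_gt ((b - a) / η)
  have hn0 : 0 < (n : ℝ) := lt_trans (by positivity) hn
  set δ : ℝ := (b - a) / n with hδ
  have hδ0 : 0 < δ := by positivity
  have hδη : δ < η := by
    rw [hδ, div_lt_iff₀ hn0]
    rw [div_lt_iff₀ hη] at hn
    linarith
  have hstep : ∀ k : ℕ, k ≤ n → ∀ᶠ t : ℝ in atTop,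
      |(∫ r in a..(a + k * δ), F r (x (t / r ^ 2))) - ∫ r in a..(a + k * δ), G r| ≤
        3 * ε * (k * δ) := by
    intro k
    induction k with
    | zero =>
      intro _
      refine Eventually.of_forall fun t => ?_
      simp
    | succ k ih =>
      intro hk
      have hkn : ((k : ℝ) + 1) * δ ≤ b - a := by
        have h1 : ((k : ℝ) + 1) ≤ n := by exact_mod_cast hk
        calc ((k : ℝ) + 1) * δ ≤ n * δ := mul_le_mul_of_nonneg_right h1 hδ0.le
          _ = b - a := by rw [hδ]; field_simp
      have hk0 : (0 : ℝ) ≤ k * δ := by positivity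
      set c : ℝ := a + k * δ with hc
      set d : ℝ := a + ((k + 1 : ℕ) : ℝ) * δ with hd
      have hdc : d = c + δ := by
        rw [hd, hc]
        push_cast
        ring
      have hcI : c ∈ Icc a b := ⟨by linarith, by nlinarith⟩
      have hdI : d ∈ Icc a b := ⟨by linarith, by rw [hdc, hc]; nlinarith⟩
      have hcd : c < d := by linarith
      have hsub : Icc c d ⊆ Icc a b := Icc_subset_Icc hcI.1 hdI.2
      have hsub1 : Icc a c ⊆ Icc a b := Icc_subset_Icc le_rfl hcI.2
      have hc0 : 0 < c := ha.trans_le hcI.1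
      -- the piece
      have hp := B8A_const (hFx c) (fun s => hC c hcI _ (hball s)) (hG c hcI) hc0 hcd.le
      rw [Metric.tendsto_atTop'] at hp
      obtain ⟨t1, ht1⟩ := hp (ε * δ) (by positivity)
      filter_upwards [ih (by omega), eventually_gt_atTop t1] with t h1 h2
      have h3 := ht1 t h2
      rw [Real.dist_eq, hdc, add_sub_cancel_left] at h3
      have i1 : IntervalIntegrable (fun r : ℝ => F r (x (t / r ^ 2))) volume a c := by
        refine ContinuousOn.intervalIntegrable ?_
        rw [uIcc_of_le hcI.1]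
        exact (hmap t).mono hsub1
      have i2 : IntervalIntegrable (fun r : ℝ => F r (x (t / r ^ 2))) volume c (c + δ) := by
        refine ContinuousOn.intervalIntegrable ?_
        rw [uIcc_of_le (by linarith), ← hdc]
        exact (hmap t).mono hsub
      have i3 : IntervalIntegrable G volume a c := by
        refine ContinuousOn.intervalIntegrable ?_
        rw [uIcc_of_le hcI.1]
        exact hGc.mono hsub1
      have i4 : IntervalIntegrable G volume c (c + δ) := by
        refine ContinuousOn.intervalIntegrable ?_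
        rw [uIcc_of_le (by linarith), ← hdc]
        exact hGc.mono hsub
      have i5 : IntervalIntegrable (fun r : ℝ => F c (x (t / r ^ 2))) volume c (c + δ) := by
        refine ContinuousOn.intervalIntegrable ((hFx c).comp_continuousOn ?_)
        refine continuousOn_const.div (continuousOn_id.pow 2) fun r hr => ?_
        rw [uIcc_of_le (by linarith)] at hr
        have : 0 < r := hc0.trans_le hr.1
        exact (pow_pos this 2).ne'
      rw [hdc, ← intervalIntegral.integral_add_adjacent_intervals i1 i2,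
        ← intervalIntegral.integral_add_adjacent_intervals i3 i4]
      have e1 : |(∫ r in c..(c + δ), F r (x (t / r ^ 2))) -
          ∫ r in c..(c + δ), F c (x (t / r ^ 2))| ≤ ε * δ := by
        rw [← intervalIntegral.integral_sub i2 i5]
        have := intervalIntegral.norm_integral_le_of_norm_le_const (a := c) (b := c + δ) (C := ε)
          (f := fun r : ℝ => F r (x (t / r ^ 2)) - F c (x (t / r ^ 2))) (fun r hr => by
            rw [uIoc_of_le (by linarith)] at hr
            have hrI : r ∈ Icc a b := hsub ⟨hr.1.le, by rw [hdc]; exact hr.2⟩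
            exact (hosc r hrI c hcI (by
              rw [abs_of_pos (by linarith [hr.1])]
              linarith [hr.2])).1 _ (hball _))
        rwa [add_sub_cancel_left, abs_of_pos hδ0, Real.norm_eq_abs] at this
      have e2 : |δ * G c - ∫ r in c..(c + δ), G r| ≤ ε * δ := by
        have e3 : δ * G c = ∫ _ in c..(c + δ), G c := by
          rw [intervalIntegral.integral_const, add_sub_cancel_left, smul_eq_mul]
        rw [e3, ← intervalIntegral.integral_sub intervalIntegrable_const i4]
        have := intervalIntegral.norm_integral_le_of_norm_le_const (a := c) (b := c + δ) (C := ε)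
          (f := fun r : ℝ => G c - G r) (fun r hr => by
            rw [uIoc_of_le (by linarith)] at hr
            have hrI : r ∈ Icc a b := hsub ⟨hr.1.le, by rw [hdc]; exact hr.2⟩
            exact (hosc c hcI r hrI (by
              rw [abs_of_neg (by linarith [hr.1])]
              linarith [hr.2])).2)
        rwa [add_sub_cancel_left, abs_of_pos hδ0, Real.norm_eq_abs] at this
      have e4 : ((k + 1 : ℕ) : ℝ) * δ = k * δ + δ := by push_cast; ring
      rw [e4]
      rw [abs_le] at h1 e1 e2
      rw [abs_lt] at h3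
      rw [abs_le]
      constructor <;> nlinarith [h1.1, h1.2, e1.1, e1.2, e2.1, e2.2, h3.1, h3.2]
  have h1 := hstep n le_rfl
  have e : (n : ℝ) * δ = b - a := by
    rw [hδ]
    field_simp
  rw [e, add_sub_cancel] at h1
  exact h1

theorem ray_abel {x : ℝ → E} (hx : Continuous x) {R : ℝ} (hR : ∀ t, ‖x t‖ ≤ R)
    {m : E → ℝ} (hm : Continuous m) {C : ℝ} (hC : ∀ y, |m y| ≤ C) {g : ℝ → ℝ}
    (hg : ∀ r : ℝ, 0 < r →
      Tendsto (fun T : ℝ => T⁻¹ * ∫ s in (0 : ℝ)..T, m (r • x s)) atTop (𝓝 (g r)))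
    {w : ℝ → ℝ} (hw : IntegrableOn w (Ioi 0)) :
    Tendsto (fun t : ℝ => ∫ r in Ioi (0 : ℝ), w r * m (r • x (t / r ^ 2))) atTop
      (𝓝 (∫ r in Ioi (0 : ℝ), w r * g r)) := by
  have hC0 : 0 ≤ C := (abs_nonneg _).trans (hC 0)
  have hmx : ∀ r : ℝ, Continuous fun s => m (r • x s) := fun r =>
    hm.comp (hx.const_smul r)
  have hgC : ∀ r, 0 < r → |g r| ≤ C := by
    intro r hr
    refine le_of_tendsto (hg r hr).abs ?_
    filter_upwards [eventually_gt_atTop 0] with T hT
    exact B8A_mean_le (fun s => hC _) hT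
  have hgm : AEStronglyMeasurable g (volume.restrict (Ioi 0)) := by
    refine aestronglyMeasurable_of_tendsto_ae (atTop : Filter ℝ)
      (f := fun (T : ℝ) (r : ℝ) => T⁻¹ * ∫ s in (0 : ℝ)..T, m (r • x s)) (fun T => ?_)
      ((ae_restrict_iff' measurableSet_Ioi).2 (Eventually.of_forall fun r hr => hg r hr))
    refine Continuous.aestronglyMeasurable (continuous_const.mul ?_)
    refine intervalIntegral.continuous_parametric_intervalIntegral_of_continuous' ?_ 0 T
    exact hm.comp (continuous_fst.smul (hx.comp continuous_snd))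
  have hMm : ∀ t : ℝ, AEStronglyMeasurable (fun r : ℝ => m (r • x (t / r ^ 2)))
      (volume.restrict (Ioi 0)) := by
    intro t
    refine ContinuousOn.aestronglyMeasurable (hm.comp_continuousOn (continuousOn_id.smul
      (hx.comp_continuousOn ?_))) measurableSet_Ioi
    refine continuousOn_const.div (continuousOn_id.pow 2) fun r hr => ?_
    have : 0 < r := hr
    exact (pow_pos this 2).ne'
  rw [Metric.tendsto_atTop']
  intro ε hε
  set ε1 : ℝ := ε / (8 * (C + 1)) with hε1
  have hε10 : 0 < ε1 := by positivity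
  -- a continuous density with compact support
  have hfi : Integrable ((Ioi (0 : ℝ)).indicator w) := (integrable_indicator_iff
    measurableSet_Ioi).2 hw
  obtain ⟨w0, hcs, hint, hcont, hi0⟩ := hfi.exists_hasCompactSupport_integral_sub_le hε10
  have hint' : ∫ r in Ioi (0 : ℝ), |w r - w0 r| ≤ ε1 := by
    refine le_trans ?_ hint
    have h1 : ∫ r in Ioi (0 : ℝ), |w r - w0 r| =
        ∫ r in Ioi (0 : ℝ), ‖(Ioi (0 : ℝ)).indicator w r - w0 r‖ := by
      refine setIntegral_congr_fun measurableSet_Ioi fun r hr => ?_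
      rw [indicator_of_mem hr, Real.norm_eq_abs]
    rw [h1]
    exact setIntegral_le_integral (hfi.sub hi0).norm (Eventually.of_forall fun r => norm_nonneg _)
  obtain ⟨K, hK⟩ := hcont.bounded_above_of_compact_support hcs
  have hK0 : 0 ≤ K := (norm_nonneg _).trans (hK 0)
  obtain ⟨B, hB⟩ := hcs.isCompact.isBounded.subset_closedBall (0 : ℝ)
  set b : ℝ := |B| + 1 with hbdef
  have hb1 : 1 ≤ b := by
    have := abs_nonneg B
    linarith
  have hb : ∀ r, b < r → w0 r = 0 := by
    intro r hr
    refine image_eq_zero_of_notMem_tsupport fun h1 => ?_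
    have h2 := hB h1
    rw [mem_closedBall_zero_iff, Real.norm_eq_abs] at h2
    have h3 := le_abs_self r
    have h4 := le_abs_self B
    linarith
  set δ : ℝ := min (1 / 2) (ε1 / (K + 1)) with hδ
  have hδ0 : 0 < δ := lt_min (by norm_num) (by positivity)
  have hδb : δ < b := lt_of_le_of_lt (min_le_left _ _) (by linarith)
  have hKδ : K * δ ≤ ε1 := by
    have h1 : δ ≤ ε1 / (K + 1) := min_le_right _ _
    have h2 : K * δ ≤ K * (ε1 / (K + 1)) := mul_le_mul_of_nonneg_left h1 hK0
    have h3 : K * (ε1 / (K + 1)) ≤ ε1 := by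
      rw [mul_div_assoc', div_le_iff₀ (by positivity)]
      nlinarith
    linarith
  have hpar := B8A_param hx hR (F := fun r y => w0 r * m (r • y))
    ((hcont.comp continuous_fst).mul (hm.comp (continuous_fst.smul continuous_snd)))
    (G := fun r => w0 r * g r) hδ0 hδb (fun r hr => by
      have h1 := (hg r (hδ0.trans_le hr.1)).const_mul (w0 r)
      refine h1.congr fun T => ?_
      rw [intervalIntegral.integral_const_mul]
      ring)
  rw [Metric.tendsto_atTop'] at hpar
  obtain ⟨t0, ht0⟩ := hpar (ε / 4) (by positivity)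
  have hg1 := B8A_cut hw hi0 (fun r => hK r) hb hδ0 hδb hint' hgm hgC
  refine ⟨t0, fun t ht => ?_⟩
  have h1 := ht0 t ht
  have h2 := B8A_cut hw hi0 (fun r => hK r) hb hδ0 hδb hint' (hMm t) (fun r _ => hC _)
  rw [Real.dist_eq] at h1 ⊢
  have h3 : C * (ε1 + K * δ) ≤ ε / 4 := by
    have h4 : C * (ε1 + K * δ) ≤ (C + 1) * (ε1 + ε1) :=
      mul_le_mul (by linarith) (by linarith) (by positivity) (by linarith)
    have h5 : (C + 1) * (ε1 + ε1) = ε / 4 := by
      rw [hε1]
      field_simp
      norm_num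
    linarith
  rw [abs_lt] at h1
  rw [abs_le] at hg1 h2
  rw [abs_lt]
  constructor <;> linarith [h1.1, h1.2, hg1.1, hg1.2, h2.1, h2.2]

end

end Pool.Agent.Lib_helper25.PV
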